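import Pool.Agent.P.MP_f6e960_lc.EU

/-!
An Erdos-Ulam ideal has an increasing-invariant isomorphic copy if and only if every permutation
splits into a part that preserves the ideal and a part whose inverse preserves the ideal.
-/

namespace Pool.Agent.Results.MP_f6e960_lc.Splitting

open Finset Filter Topology

/-- The Erdos-Ulam ideal of the weight `f`. -/
def EU (f : ℕ → ℝ) : Set (Set ℕ) :=
  {A | Tendsto (fun n => (∑ i ∈ range n, A.indicator f i) / ∑ i ∈ range n, f i) atTop (𝓝 0)}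

/-- Increasing-invariant families of sets. -/
def IncInv (I : Set (Set ℕ)) : Prop :=
  ∀ B ∈ I, ∀ C : Set ℕ, (∀ n, (C ∩ Set.Iio n).ncard ≤ (B ∩ Set.Iio n).ncard) → C ∈ I

lemma shift {I : Set (Set ℕ)} {φ : ℕ ≃ ℕ} (h : IncInv {B | ∃ A ∈ I, B = φ '' A})
    (σ : Equiv.Perm ℕ) {X : Set ℕ} (hX : X ∈ I) (hle : ∀ x ∈ X, φ x ≤ φ (σ x)) : σ '' X ∈ I := by
  obtain ⟨A, hA, e⟩ := h _ ⟨X, hX, rfl⟩ (φ '' (σ '' X)) fun n =>
    Set.ncard_le_ncard_of_injOn (fun y => φ (σ.symm (φ.symm y))) (by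
      rintro _ ⟨⟨_, ⟨x, hx, rfl⟩, rfl⟩, h2⟩
      simp only [Equiv.symm_apply_apply]
      exact ⟨⟨x, hx, rfl⟩, (hle x hx).trans_lt h2⟩)
      (φ.injective.comp (σ.symm.injective.comp φ.symm.injective)).injOn
      ((Set.finite_Iio n).inter_of_right _)
  rwa [(Set.image_injective.2 φ.injective) e]

theorem result (f : ℕ → ℝ) (h0 : ∀ i, 0 ≤ f i)
    (h1 : Tendsto (fun n => ∑ i ∈ range n, f i) atTop atTop)
    (h2 : Tendsto (fun n => f n / ∑ i ∈ range (n + 1), f i) atTop (𝓝 0)) :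
    (∃ φ : ℕ ≃ ℕ, IncInv {B | ∃ A ∈ EU f, B = φ '' A}) ↔
      ∀ σ : Equiv.Perm ℕ, ∃ A : Set ℕ, (∀ X ⊆ A, X ∈ EU f → σ '' X ∈ EU f) ∧
        ∀ X ⊆ Aᶜ, σ '' X ∈ EU f → X ∈ EU f := by
  refine ⟨fun ⟨φ, h⟩ σ => ⟨{x | φ x ≤ φ (σ x)}, fun X hX h' => shift h σ h' hX,
    fun X hX h' => ?_⟩, fun H => ?_⟩
  · have := shift h σ.symm h' (by
      rintro _ ⟨x, hx, rfl⟩
      rw [Equiv.symm_apply_apply]
      exact le_of_not_ge (hX hx))
    rwa [Equiv.symm_image_image] at this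
  obtain ⟨ι, S, hS⟩ := Pool.Agent.P.MP_f6e960_lc.exists_sys_EU f h0 h1 h2
  have hS' : ∀ X, X ∈ EU f ↔ S.Small X := fun X => (hS X).symm
  have hsp : S.Split := by
    intro g hg
    obtain ⟨A, a1, a2⟩ := H (hg.toPerm g)
    simp only [hS', Function.Involutive.coe_toPerm] at a1 a2
    refine ⟨A ∪ g ⁻¹' Aᶜ, fun x => ?_, fun X hX hs => ?_⟩
    · by_cases hx : x ∈ A
      · exact Or.inl (Or.inl hx)
      · exact Or.inr (Or.inr (by rwa [Set.mem_preimage, hg x]))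
    · refine ((a1 (X ∩ A) Set.inter_subset_right (hs.mono Set.inter_subset_left)).union
        (a2 (g ⁻¹' X ∩ Aᶜ) Set.inter_subset_right (hs.mono ?_))).mono fun y hy => ?_
      · rintro _ ⟨y, hy, rfl⟩
        exact hy.1
      · rcases hX hy with h | h
        · exact Or.inl ⟨g y, ⟨hy, h⟩, hg y⟩
        · exact Or.inr ⟨hy, by rwa [Set.mem_preimage, hg y] at h⟩
  obtain ⟨φ, hφ⟩ := hsp.order
  refine ⟨φ, ?_⟩
  rintro _ ⟨B, hB, rfl⟩ C hC
  refine ⟨φ ⁻¹' C, (hS' _).2 (hφ B _ ((hS' _).1 hB) fun n => ?_), (φ.image_preimage C).symm⟩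
  have e : ∀ X : Set ℕ, (X ∩ {y | φ y < n}).ncard = (φ '' X ∩ Set.Iio n).ncard := fun X => by
    rw [← Set.ncard_image_of_injective _ φ.injective]
    exact congrArg _ (Set.image_inter_preimage φ X (Set.Iio n))
  rw [e, e, φ.image_preimage]
  exact hC n

end Pool.Agent.Results.MP_f6e960_lc.Splitting
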