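import Pool.Agent.P.MP_f6e960_lc.X.Main

/-!
An explicit criterion, in terms of the sizes of the atoms of the block measures, for an
Erdos-Ulam ideal to have an increasing-invariant isomorphic copy.
-/

namespace Pool.Agent.Results.MP_f6e960_lc.Weights

open Finset Filter Topology Pool.Agent.P.MP_f6e960_lc.X

/-- Every Erdos-Ulam ideal is represented by its dyadic block measures, and for every
representation by block measures it has an increasing-invariant isomorphic copy if and only if the
atoms satisfy conditions (A) and (B). -/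
theorem result (f : ℕ → ℝ) (h0 : ∀ i, 0 ≤ f i)
    (h1 : Tendsto (fun n => ∑ i ∈ range n, f i) atTop atTop)
    (h2 : Tendsto (fun n => f n / ∑ i ∈ range (n + 1), f i) atTop (𝓝 0)) :
    Rep f (blk f) (wt f) ∧ ∀ (b : ℕ → ℕ) (w : ℕ → ℝ), Rep f b w →
      ((∃ φ : ℕ ≃ ℕ, IncInv {B | ∃ A ∈ EU f, B = φ '' A}) ↔ CondA b w ∧ CondB b w) :=
  ⟨rep_blk f h0 h1 h2, fun _ _ h => iff_of_rep h⟩

end Pool.Agent.Results.MP_f6e960_lc.Weights
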